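import Pool.Agent.Q281.BK.Main

/-!
# The Bonk-Kleiner dichotomy fails for finitely presented inverse monoids

Let `M = Inv⟨a, t, b, p, z | a a⁻¹ = 1, t a = a a t, b = a t, p p = p, p = p t p t⁻¹,
t t⁻¹ a t t⁻¹ = z, z x = z = x z (x a generator)⟩` (the list `rels` below). Then

* `M` is an inverse monoid (every element has a unique inverse),
* all Schuetzenberger graphs of `M` are Gromov hyperbolic with the same constant `12`,
* the Schuetzenberger graph of `p` (a combinatorial horoball over `ℕ`) is not quasi-isometric to a tree,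
* no Schuetzenberger graph of `M` contains a quasi-isometric image of the hyperbolic plane.

The definitions are in `Pool/Agent/Q281/BK/Pres.lean` (presentations, Cayley graph, Schuetzenberger
graphs) and `Pool/Agent/Q281/BK/Def.lean` (hyperbolicity, quasi-isometries).

Idea: the nonzero `R`-classes of `M` embed in the Cayley graph of the Baumslag-Solitar group
`⟨a, t | t a = a a t⟩`; the relation `t t⁻¹ a t t⁻¹ = z` forbids two different sheets above one
line, so each graph is a tower of rays or lines, one for each level, the level `k+1` being attached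
to every second vertex of level `k`. Such towers are uniformly hyperbolic. A finite word bounds the
levels from below, so a bi-infinite quasi-geodesic exists only if there are finitely many levels,
and then the graph is quasi-isometric to a line or a ray. The idempotent `p` forces infinitely many levels.
-/

set_option autoImplicit false

namespace Pool.Agent.Results.MP_8b7a64_al.UniformExample

open Pool.Agent.Q281.BK

universe u

open Gen in
/-- The defining relations; `(x, true)` stands for `x` and `(x, false)` for `x⁻¹`. -/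
def rels : List (List (Gen × Bool) × List (Gen × Bool)) :=
  [([(a, true), (a, false)], []),
   ([(t, true), (a, true)], [(a, true), (a, true), (t, true)]),
   ([(b, true)], [(a, true), (t, true)]),
   ([(p, true), (p, true)], [(p, true)]),
   ([(p, true)], [(p, true), (t, true), (p, true), (t, false)]),
   ([(t, true), (t, false), (a, true), (t, true), (t, false)], [(z, true)]),
   ([(z, true), (a, true)], [(z, true)]), ([(a, true), (z, true)], [(z, true)]),
   ([(z, true), (t, true)], [(z, true)]), ([(t, true), (z, true)], [(z, true)]),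
   ([(z, true), (b, true)], [(z, true)]), ([(b, true), (z, true)], [(z, true)]),
   ([(z, true), (p, true)], [(z, true)]), ([(p, true), (z, true)], [(z, true)]),
   ([(z, true), (z, true)], [(z, true)])]

/-- The defining relations as pairs of words. -/
def R1 : Set (Word Gen × Word Gen) :=
  {r | ∃ x ∈ rels, r = (FreeMonoid.ofList x.1, FreeMonoid.ofList x.2)}

theorem R1_eq : R1 = R0 := by
  ext r
  constructor
  · rintro ⟨x, hx, rfl⟩
    simp only [rels, List.mem_cons, List.not_mem_nil, or_false] at hx
    rcases hx with rfl | rfl | rfl | rfl | rfl | rfl | rfl | rfl | rfl | rfl | rfl | rfl | rfl | rfl |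
      rfl
    · exact Or.inl (Or.inl (Or.inl rfl))
    · exact Or.inl (Or.inl (Or.inr (Or.inl rfl)))
    · exact Or.inl (Or.inl (Or.inr (Or.inr (Or.inl rfl))))
    · exact Or.inl (Or.inl (Or.inr (Or.inr (Or.inr (Or.inl rfl)))))
    · exact Or.inl (Or.inl (Or.inr (Or.inr (Or.inr (Or.inr (Or.inl rfl))))))
    · exact Or.inl (Or.inl (Or.inr (Or.inr (Or.inr (Or.inr (Or.inr rfl))))))
    · exact Or.inl (Or.inr ⟨Gen.a, rfl⟩)
    · exact Or.inr ⟨Gen.a, rfl⟩
    · exact Or.inl (Or.inr ⟨Gen.t, rfl⟩)
    · exact Or.inr ⟨Gen.t, rfl⟩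
    · exact Or.inl (Or.inr ⟨Gen.b, rfl⟩)
    · exact Or.inr ⟨Gen.b, rfl⟩
    · exact Or.inl (Or.inr ⟨Gen.p, rfl⟩)
    · exact Or.inr ⟨Gen.p, rfl⟩
    · exact Or.inl (Or.inr ⟨Gen.z, rfl⟩)
  · rintro ((h | h) | h)
    · simp only [Set.mem_insert_iff, Set.mem_singleton_iff] at h
      rcases h with rfl | rfl | rfl | rfl | rfl | rfl
      · exact ⟨_, .head _, rfl⟩
      · exact ⟨_, .tail _ (.head _), rfl⟩
      · exact ⟨_, .tail _ (.tail _ (.head _)), rfl⟩
      · exact ⟨_, .tail _ (.tail _ (.tail _ (.head _))), rfl⟩
      · exact ⟨_, .tail _ (.tail _ (.tail _ (.tail _ (.head _)))), rfl⟩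
      · exact ⟨_, .tail _ (.tail _ (.tail _ (.tail _ (.tail _ (.head _))))), rfl⟩
    · obtain ⟨x, rfl⟩ := h
      refine ⟨([(Gen.z, true), (x, true)], [(Gen.z, true)]), ?_, rfl⟩
      cases x <;> simp [rels]
    · obtain ⟨x, rfl⟩ := h
      refine ⟨([(x, true), (Gen.z, true)], [(Gen.z, true)]), ?_, rfl⟩
      cases x <;> simp [rels]

theorem aux {R : Set (Word Gen × Word Gen)} (h : R = R0) : Finite Gen ∧ R.Finite ∧
    IsInverse (InvPres R) ∧
    (∀ s : InvPres R, Hyp (Sch R s) 12) ∧
    ¬ QITree.{u} (Sch R (elt R (FreeMonoid.of (Gen.p, true)))) ∧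
    (∀ s : InvPres R, ¬ HasH2 (Sch R s)) := by
  subst h
  exact ⟨inferInstance, R0_finite, WInv.isInverse, hyp_all, not_tree, noh2_all⟩

theorem result : Finite Gen ∧ R1.Finite ∧ IsInverse (InvPres R1) ∧
    (∀ s : InvPres R1, Hyp (Sch R1 s) 12) ∧
    ¬ QITree.{u} (Sch R1 (elt R1 (FreeMonoid.of (Gen.p, true)))) ∧
    (∀ s : InvPres R1, ¬ HasH2 (Sch R1 s)) :=
  aux R1_eq

end Pool.Agent.Results.MP_8b7a64_al.UniformExample
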